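import Pool.Agent.V35.WM

/-! Windows of tuples of natural numbers: countably many thin sets at once. -/

set_option autoImplicit false

open Finset MeasureTheory

namespace Pool.Agent.V11286.RL

open Pool.Agent.V35.WM

/-- the tuple as a real vector -/
def rvec {k : ℕ} (l : Fin k → ℕ) : Fin k → ℝ := fun i => (l i : ℝ)

theorem wins {κ : Type*} [Countable κ] {k : ℕ} (hk : 1 ≤ k) (S : κ → Set (Fin k → ℕ))
    (hS : ∀ q, Thin (S q) rvec ((k : ℝ) - 1)) {v : ℕ → ℝ} {τ θ : ℝ} (hv : ∀ n, 1 ≤ v n) (hτ : 0 ≤ τ)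
    (hE : ExpLe v τ) (hθ1 : θ < 1) :
    ∃ E : Set (Fin k → ℝ), dimH E ≤ ENNReal.ofReal (((k : ℝ) - 1 + τ) / (1 - θ)) ∧
      ((k : ℝ) - 1 + τ < (1 - θ) * k → volume E = 0) ∧
      ∀ α : Fin k → ℝ, α ∉ E → ∀ q, ∃ i₀ : ℕ, ∀ i : ℕ, i₀ ≤ i → ∀ l : Fin k → ℕ,
        (∀ m, |(l m : ℝ) - v i * α m| ≤ (v i) ^ θ) → l ∉ S q := by
  have h1θ : 0 < 1 - θ := by linarith
  have hk1 : (1 : ℝ) ≤ k := by exact_mod_cast hk
  have h0 : 0 ≤ (k : ℝ) - 1 := by linarith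
  have h1 : dimH (⋃ q, BadWin (S q) rvec v θ) ≤ ENNReal.ofReal (((k : ℝ) - 1 + τ) / (1 - θ)) := by
    rw [dimH_iUnion]
    exact iSup_le fun q => dim_badWin hv hτ hE h0 hθ1 (hS q)
  refine ⟨⋃ q, BadWin (S q) rvec v θ, h1, fun hlt => ?_, fun α hα q => ?_⟩
  · refine null_of_dimH h1 ?_ ?_
    · exact div_nonneg (by linarith) h1θ.le
    · rw [Fintype.card_fin, div_lt_iff₀ h1θ]
      linarith
  · by_contra hcon
    apply hα
    rw [Set.mem_iUnion]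
    refine ⟨q, fun n1 => ?_⟩
    push Not at hcon
    obtain ⟨i, hi, l, h2, h3⟩ := hcon n1
    refine ⟨i, hi, l, h3, ?_⟩
    rw [pi_norm_le_iff_of_nonneg (Real.rpow_nonneg (by linarith [hv i]) _)]
    intro m
    rw [Real.norm_eq_abs]
    exact h2 m

/-- a set of tuples with at most `C (N + 1) ^ (k - 1)` members in the box `[0, N] ^ k` is thin -/
theorem thin_of_box {k : ℕ} (hk : 1 ≤ k) (S : Set (Fin k → ℕ)) (C : ℝ) (hC : 0 ≤ C)
    (h : ∀ (N : ℕ) (A : Finset (Fin k → ℕ)), (∀ l ∈ A, l ∈ S ∧ ∀ i, l i ≤ N) →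
      (A.card : ℝ) ≤ C * ((N : ℝ) + 1) ^ (k - 1)) : Thin S rvec ((k : ℝ) - 1) := by
  classical
  intro ε hε
  refine ⟨C * 2 ^ (k - 1), fun X hX => ?_⟩
  have hX0 : 0 < X := by linarith
  have hbox : ∀ l : Fin k → ℕ, ‖rvec l‖ ≤ X → ∀ i, l i ≤ ⌊X⌋₊ := by
    intro l hl i
    have h1 := (pi_norm_le_iff_of_nonneg hX0.le).1 hl i
    rw [rvec, Real.norm_eq_abs, abs_of_nonneg (Nat.cast_nonneg _)] at h1
    exact Nat.le_floor h1
  have hfin : {l | l ∈ S ∧ ‖rvec l‖ ≤ X}.Finite := by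
    apply Set.Finite.subset (Finset.finite_toSet (Fintype.piFinset (fun _ : Fin k => Finset.range (⌊X⌋₊ + 1))))
    rintro l ⟨-, hl⟩
    rw [Finset.mem_coe, Fintype.mem_piFinset]
    intro i
    rw [Finset.mem_range]
    have := hbox l hl i
    omega
  refine ⟨hfin, ?_⟩
  rw [Set.ncard_eq_toFinset_card _ hfin]
  have h1 := h ⌊X⌋₊ hfin.toFinset (by
    intro l hl
    rw [Set.Finite.mem_toFinset] at hl
    exact ⟨hl.1, hbox l hl.2⟩)
  refine h1.trans ?_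
  have h2 : (⌊X⌋₊ : ℝ) + 1 ≤ 2 * X := by
    have := Nat.floor_le hX0.le
    linarith
  have hkk : ((k : ℝ) - 1) = ((k - 1 : ℕ) : ℝ) := by
    rw [Nat.cast_sub hk, Nat.cast_one]
  calc C * ((⌊X⌋₊ : ℝ) + 1) ^ (k - 1) ≤ C * (2 * X) ^ (k - 1) := by
        apply mul_le_mul_of_nonneg_left _ hC
        exact pow_le_pow_left₀ (by positivity) h2 _
    _ = C * 2 ^ (k - 1) * X ^ ((k : ℝ) - 1) := by
        rw [hkk, Real.rpow_natCast, mul_pow]
        ring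
    _ ≤ _ := by
        apply mul_le_mul_of_nonneg_left _ (by positivity)
        exact Real.rpow_le_rpow_of_exponent_le hX (by linarith)

end Pool.Agent.V11286.RL
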