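import Pool.Agent.H674R3.SiegelE

/-! Perturbations of a plane curve by polynomials with prescribed monomials: the number of the perturbed curves with
a large integer point. -/

set_option autoImplicit false

open Finset

namespace Pool.Agent.V11286.RL

open Pool.Agent.H674R3 Pool.Agent.H322R2

/-- the polynomial with the coefficients `c` at the monomials of the set `I` -/
noncomputable def poly {I : Finset (ℕ × ℕ)} (c : I → ℤ) : MvPolynomial (Fin 2) ℤ :=
  ∑ m : I, MvPolynomial.monomial (Finsupp.single 0 m.1.1 + Finsupp.single 1 m.1.2) (c m)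

/-- The polynomials of degree `d` with a leading form which is squarefree over `ℚ` and, if it is irreducible over `ℚ`,
with restrictions of degree at least `d - 2` to all real lines. -/
def Good (d : ℕ) : Set (MvPolynomial (Fin 2) ℤ) :=
  {F | F.totalDegree = d ∧ Squarefree (MvPolynomial.map (Int.castRingHom ℚ) (MvPolynomial.homogeneousComponent d F)) ∧
    (Irreducible (MvPolynomial.map (Int.castRingHom ℚ) (MvPolynomial.homogeneousComponent d F)) →
      ∀ p q : Fin 2 → ℝ, q ≠ 0 → d ≤
      (MvPolynomial.aeval (fun i => (Polynomial.C (p i) + Polynomial.C (q i) * Polynomial.X : Polynomial ℝ)) F).natDegree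
        + 2)}

/-- The good polynomials of degree `d`, irreducible over `ℚ`, which have an integer zero `(x, y)` with
`max(|x|, |y|) > ((d + 1) h(F)) ^ C`, where `h(F)` is the sum of the absolute values of the coefficients of `F` and
`C = 10 ^ 17 * 1296 ^ d * (d + 1) ^ 15`. -/
def Exc (d : ℕ) : Set (MvPolynomial (Fin 2) ℤ) :=
  {F | F ∈ Good d ∧ Irreducible (MvPolynomial.map (Int.castRingHom ℚ) F) ∧
    ∃ x y : ℤ, MvPolynomial.eval ![x, y] F = 0 ∧
      ((d + 1) * ∑ m ∈ F.support, (F.coeff m).natAbs) ^ (10 ^ 17 * 1296 ^ d * (d + 1) ^ 15)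
        < max x.natAbs y.natAbs}

/-- the monomials of degree greater than `d - 4` -/
def top (d : ℕ) (I : Finset (ℕ × ℕ)) : Finset (ℕ × ℕ) := I.filter (fun m => d ≤ m.1 + m.2 + 3)

lemma poly_sub {I : Finset (ℕ × ℕ)} (c c' : I → ℤ) : poly c - poly c' = poly (c - c') := by
  unfold poly
  rw [← Finset.sum_sub_distrib]
  refine Finset.sum_congr rfl fun m _ => ?_
  rw [Pi.sub_apply, map_sub]

lemma poly_deg {d : ℕ} (hd : 4 ≤ d) {I : Finset (ℕ × ℕ)} {c : I → ℤ}
    (h : ∀ m : I, d ≤ m.1.1 + m.1.2 + 3 → c m = 0) : (poly c).totalDegree + 4 ≤ d := by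
  have h1 : (poly c).totalDegree ≤ d - 4 := by
    unfold poly
    refine MvPolynomial.totalDegree_finsetSum_le fun m _ => ?_
    by_cases hm : d ≤ m.1.1 + m.1.2 + 3
    · rw [h m hm, map_zero, MvPolynomial.totalDegree_zero]
      omega
    · refine (MvPolynomial.totalDegree_monomial_le _ _).trans ?_
      rw [Finsupp.sum_add_index' (fun _ => rfl) (fun _ _ _ => rfl), Finsupp.sum_single_index rfl,
        Finsupp.sum_single_index rfl]
      simp only [id]
      omega
  omega

lemma exp_inj {a b a' b' : ℕ} (h : (Finsupp.single 0 a + Finsupp.single 1 b : Fin 2 →₀ ℕ) =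
    Finsupp.single 0 a' + Finsupp.single 1 b') : a = a' ∧ b = b' := by
  have h0 := DFunLike.congr_fun h 0
  have h1 := DFunLike.congr_fun h 1
  simp at h0 h1
  exact ⟨h0, h1⟩

lemma coeff_poly {I : Finset (ℕ × ℕ)} (c : I → ℤ) (m : I) :
    (poly c).coeff (Finsupp.single 0 m.1.1 + Finsupp.single 1 m.1.2) = c m := by
  classical
  unfold poly
  rw [MvPolynomial.coeff_sum, Finset.sum_eq_single m]
  · rw [MvPolynomial.coeff_monomial, if_pos rfl]
  · intro b _ hb
    rw [MvPolynomial.coeff_monomial, if_neg]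
    intro h
    apply hb
    obtain ⟨h1, h2⟩ := exp_inj h
    exact Subtype.ext (Prod.ext h1 h2)
  · intro h
    exact absurd (Finset.mem_univ _) h

lemma poly_inj {I : Finset (ℕ × ℕ)} {c c' : I → ℤ} (F : MvPolynomial (Fin 2) ℤ) (h : F + poly c = F + poly c') :
    c = c' := by
  have h1 := add_left_cancel h
  funext m
  rw [← coeff_poly c m, h1, coeff_poly]

/-- the bound for the number of exceptions with given top coefficients -/
def num (d : ℕ) : ℕ := 10 ^ 9 * 36 ^ d * (d + 1) ^ 8

lemma fibre {d : ℕ} (hd : 4 ≤ d) {I : Finset (ℕ × ℕ)} (F : MvPolynomial (Fin 2) ℤ) (S : Finset (I → ℤ))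
    (hS : ∀ c ∈ S, F + poly c ∈ Exc d)
    (htop : ∀ c ∈ S, ∀ c' ∈ S, ∀ m : I, d ≤ m.1.1 + m.1.2 + 3 → c m = c' m) : S.card ≤ num d := by
  classical
  rcases S.eq_empty_or_nonempty with rfl | ⟨c0, hc0⟩
  · simp
  obtain ⟨⟨hg1, hg2, hg3⟩, -, -⟩ := hS c0 hc0
  obtain ⟨H, hH⟩ : ∃ H, H = F + poly c0 := ⟨_, rfl⟩
  rw [← hH] at hg1 hg2 hg3
  subst hg1
  have key := main6 H hd hg2 hg3
  have hN : kN H.totalDegree * H.totalDegree ≤ num H.totalDegree := by
    unfold kN num
    rw [pow_succ (H.totalDegree + 1) 7, ← mul_assoc]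
    exact Nat.mul_le_mul_left _ (by omega)
  have hch : ∀ c : S, ∃ x y : ℤ, MvPolynomial.eval ![x, y] (F + poly c.1) = 0 ∧
      ((H.totalDegree + 1) * ∑ m ∈ (F + poly c.1).support, ((F + poly c.1).coeff m).natAbs) ^
        (10 ^ 17 * 1296 ^ H.totalDegree * (H.totalDegree + 1) ^ 15) < max x.natAbs y.natAbs :=
    fun c => (hS c.1 c.2).2.2
  choose x y hx hy using hch
  have hinj : Function.Injective (fun c : S => ((F + poly c.1, x c, y c) : MvPolynomial (Fin 2) ℤ × ℤ × ℤ)) := by
    intro c c' h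
    have h1 := congrArg Prod.fst h
    exact Subtype.ext (poly_inj F h1)
  have h1 : Set.encard (Set.range (fun c : S => ((F + poly c.1, x c, y c) : MvPolynomial (Fin 2) ℤ × ℤ × ℤ))) ≤
      (kN H.totalDegree * H.totalDegree : ℕ) := by
    refine le_trans (Set.encard_le_encard ?_) key
    rintro t ⟨c, rfl⟩
    refine ⟨?_, (hS c.1 c.2).2.1, hx c, hy c⟩
    have h2 : F + poly c.1 - H = poly (c.1 - c0) := by
      rw [hH, ← poly_sub]
      ring
    simp only
    rw [h2]
    apply poly_deg hd
    intro m hm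
    rw [Pi.sub_apply, htop c.1 c.2 c0 hc0 m hm, sub_self]
  rw [← Set.image_univ, hinj.encard_image, Set.encard_univ, ENat.card_eq_coe_fintype_card, Fintype.card_coe] at h1
  have h2 : S.card ≤ kN H.totalDegree * H.totalDegree := by exact_mod_cast h1
  exact h2.trans hN

/-- **The count.** -/
theorem count {d : ℕ} (hd : 4 ≤ d) {I : Finset (ℕ × ℕ)} (F : MvPolynomial (Fin 2) ℤ) (X : ℕ) :
    {c : I → ℤ | (∀ m, |c m| ≤ X) ∧ F + poly c ∈ Exc d}.Finite ∧
      {c : I → ℤ | (∀ m, |c m| ≤ X) ∧ F + poly c ∈ Exc d}.ncard ≤ num d * (2 * X + 1) ^ (top d I).card := by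
  classical
  have hfin : {c : I → ℤ | (∀ m, |c m| ≤ X) ∧ F + poly c ∈ Exc d}.Finite := by
    apply Set.Finite.subset (Finset.finite_toSet (Fintype.piFinset (fun _ : I => Finset.Icc (-(X : ℤ)) X)))
    rintro c ⟨hc, -⟩
    rw [Finset.mem_coe, Fintype.mem_piFinset]
    intro m
    rw [Finset.mem_Icc]
    exact abs_le.1 (hc m)
  refine ⟨hfin, ?_⟩
  rw [Set.ncard_eq_toFinset_card _ hfin]
  set S := hfin.toFinset with hSdef
  have hS : ∀ c ∈ S, (∀ m, |c m| ≤ (X : ℤ)) ∧ F + poly c ∈ Exc d := fun c hc => by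
    rw [hSdef, Set.Finite.mem_toFinset] at hc
    exact hc
  set f : (I → ℤ) → (↥(top d I) → ℤ) := fun c m => c ⟨m.1, (Finset.mem_filter.1 m.2).1⟩ with hf
  have h1 := Finset.card_le_mul_card_image (f := f) S (num d) (by
    intro b _
    apply fibre hd F
    · intro c hc
      exact (hS c (Finset.mem_filter.1 hc).1).2
    · intro c hc c' hc' m hm
      have e1 := (Finset.mem_filter.1 hc).2
      have e2 := (Finset.mem_filter.1 hc').2
      have hm' : m.1 ∈ top d I := Finset.mem_filter.2 ⟨m.2, hm⟩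
      have e3 := congrFun (e1.trans e2.symm) ⟨m.1, hm'⟩
      exact e3)
  have h2 : (S.image f).card ≤ (2 * X + 1) ^ (top d I).card := by
    calc (S.image f).card ≤ (Fintype.piFinset (fun _ : ↥(top d I) => Finset.Icc (-(X : ℤ)) X)).card := by
          apply Finset.card_le_card
          intro b hb
          obtain ⟨c, hc, rfl⟩ := Finset.mem_image.1 hb
          rw [Fintype.mem_piFinset]
          intro m
          rw [Finset.mem_Icc]
          exact abs_le.1 ((hS c hc).1 _)
      _ = (2 * X + 1) ^ (top d I).card := by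
          rw [Fintype.card_piFinset, Finset.prod_const, Int.card_Icc, Finset.card_univ, Fintype.card_coe]
          congr 1
          omega
  exact h1.trans (Nat.mul_le_mul_left _ h2)

end Pool.Agent.V11286.RL
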