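import Pool.Agent.V11286.RL.Prog

/-! Every coset of a suitable small subspace contains an element of a given dense set of monic polynomials. -/

set_option autoImplicit false

open Polynomial

namespace Pool.Agent.V11286.RL

/-- the elements whose translates by `H` all miss `A` -/
def Unc {k V : Type*} [Field k] [AddCommGroup V] [Module k V] (A : Set V) (H : Submodule k V) : Set V :=
  {v | ∀ h ∈ H, v + h ∉ A}

/-- the sum over all translations of the number of the elements of `U` whose translate is in `U` -/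
theorem sum_inter {V : Type*} [AddCommGroup V] [Fintype V] [DecidableEq V] (U : Finset V) :
    ∑ x : V, (U.filter fun v => v + x ∈ U).card = U.card * U.card := by
  have h1 : ∀ x : V, (U.filter fun v => v + x ∈ U).card = ∑ v ∈ U, if v + x ∈ U then 1 else 0 := by
    intro x
    rw [Finset.card_filter]
  simp_rw [h1]
  rw [Finset.sum_comm]
  have h2 : ∀ v ∈ U, (∑ x : V, if v + x ∈ U then 1 else 0) = U.card := by
    intro v _
    rw [← Finset.card_filter]
    apply Finset.card_bij (fun x _ => v + x)
    · intro x hx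
      exact (Finset.mem_filter.1 hx).2
    · intro x _ y _ h
      exact add_left_cancel h
    · intro u hu
      refine ⟨u - v, Finset.mem_filter.2 ⟨Finset.mem_univ _, ?_⟩, ?_⟩
      · rw [add_sub_cancel]
        exact hu
      · exact add_sub_cancel _ _
  rw [Finset.sum_congr rfl h2, Finset.sum_const, smul_eq_mul]

/-- **Covering by cosets.** -/
theorem cover {k V : Type*} [Field k] [AddCommGroup V] [Module k V] [Finite V] (A : Set V) {μ : ℝ} (hμ : 0 ≤ μ)
    (hA : (((Aᶜ : Set V).ncard : ℕ) : ℝ) ≤ μ * Nat.card V) (s : ℕ) :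
    ∃ H : Submodule k V, Module.finrank k H ≤ s ∧ ((Unc A H).ncard : ℝ) ≤ μ ^ (2 ^ s) * Nat.card V := by
  classical
  have := Fintype.ofFinite V
  have hV : (0 : ℝ) < Nat.card V := by exact_mod_cast Nat.card_pos
  have hfd : FiniteDimensional k V := Module.Finite.of_finite
  induction s with
  | zero =>
    refine ⟨⊥, by rw [finrank_bot], ?_⟩
    rw [pow_zero, pow_one]
    refine le_trans ?_ hA
    have : Unc A (⊥ : Submodule k V) ⊆ Aᶜ := by
      intro v hv
      have := hv 0 (Submodule.zero_mem _)
      rwa [add_zero] at this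
    exact_mod_cast Set.ncard_le_ncard this (Set.toFinite _)
  | succ s ih =>
    obtain ⟨H, h1, h2⟩ := ih
    set U : Finset V := (Unc A H).toFinset with hU
    have hUc : ((Unc A H).ncard : ℝ) = U.card := by rw [hU, Set.ncard_eq_toFinset_card']
    obtain ⟨x, hx⟩ : ∃ x : V, ((U.filter fun v => v + x ∈ U).card : ℝ) * Nat.card V ≤ U.card * U.card := by
      by_contra hcon
      push Not at hcon
      have h3 : ∑ _x : V, ((U.card * U.card : ℝ)) < ∑ x : V, ((U.filter fun v => v + x ∈ U).card : ℝ) * Nat.card V :=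
        Finset.sum_lt_sum_of_nonempty ⟨0, Finset.mem_univ _⟩ fun x _ => hcon x
      have h4 : ∑ x : V, ((U.filter fun v => v + x ∈ U).card : ℝ) = U.card * U.card := by
        exact_mod_cast sum_inter U
      rw [Finset.sum_const, Finset.card_univ, nsmul_eq_mul, ← Nat.card_eq_fintype_card, ← Finset.sum_mul, h4,
        mul_comm] at h3
      exact lt_irrefl _ h3
    refine ⟨H ⊔ Submodule.span k {x}, ?_, ?_⟩
    · have h3 := Submodule.finrank_add_le_finrank_add_finrank H (Submodule.span k {x})
      have h4 : Module.finrank k (Submodule.span k {x}) ≤ 1 := by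
        have := finrank_span_le_card (R := k) ({x} : Set V)
        simpa using this
      omega
    · have h3 : Unc A (H ⊔ Submodule.span k {x}) ⊆ ((U.filter fun v => v + x ∈ U : Finset V) : Set V) := by
        intro v hv
        rw [Finset.coe_filter, hU]
        simp only [Set.mem_toFinset]
        refine ⟨fun h hh => hv h (Submodule.mem_sup_left hh), fun h hh => ?_⟩
        rw [add_assoc]
        exact hv (x + h) (Submodule.add_mem _ (Submodule.mem_sup_right (Submodule.mem_span_singleton_self x))
          (Submodule.mem_sup_left hh))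
      have h4 : ((Unc A (H ⊔ Submodule.span k {x})).ncard : ℝ) ≤ ((U.filter fun v => v + x ∈ U).card : ℝ) := by
        have := Set.ncard_le_ncard h3 (Set.toFinite _)
        rw [Set.ncard_coe_finset] at this
        exact_mod_cast this
      refine h4.trans ?_
      rw [hUc] at h2
      have h5 : (U.card : ℝ) * U.card ≤ (μ ^ (2 ^ s) * Nat.card V) * (μ ^ (2 ^ s) * Nat.card V) :=
        mul_le_mul h2 h2 (Nat.cast_nonneg _) (by positivity)
      have h6 : μ ^ (2 ^ (s + 1)) = μ ^ (2 ^ s) * μ ^ (2 ^ s) := by
        rw [← pow_add]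
        congr 1
        rw [pow_succ]
        ring
      rw [h6]
      have h7 := hx.trans h5
      have h8 : (μ ^ (2 ^ s) * Nat.card V) * (μ ^ (2 ^ s) * Nat.card V) =
          (μ ^ (2 ^ s) * μ ^ (2 ^ s) * Nat.card V) * Nat.card V := by ring
      rw [h8] at h7
      exact le_of_mul_le_mul_right h7 hV

/-- **Cosets of a small subspace.** A set of monic polynomials of degree `m` of density at least `δ` meets every coset
`f + H`, `f` monic of degree `m`, of some space `H` of polynomials of degree less than `m`, of dimension at most `s`, if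
`δ 2 ^ s > m log |k|`. -/
theorem cosets {k : Type*} [Field k] [Finite k] {δ : ℝ} {m s : ℕ} (A : Set k[X]) (hA : A ⊆ Mon k m)
    (hδ : δ * (Nat.card k : ℝ) ^ m ≤ A.ncard) (hs : m * Real.log (Nat.card k) < δ * 2 ^ s) :
    ∃ H : Submodule k k[X], Module.Finite k H ∧ Module.finrank k H ≤ s ∧ (∀ h ∈ H, h.degree < m) ∧
      ∀ f ∈ Mon k m, ∃ h ∈ H, f + h ∈ A := by
  classical
  have hV : Finite (degreeLT k m) := by
    apply Nat.finite_of_card_ne_zero
    rw [card_degreeLT]
    exact pow_ne_zero _ Nat.card_pos.ne'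
  have hq1 : (1 : ℝ) < Nat.card k := by exact_mod_cast Finite.one_lt_card
  have hq0 : (0 : ℝ) < Nat.card k := by linarith
  have hcard : (Nat.card (degreeLT k m) : ℝ) = (Nat.card k : ℝ) ^ m := by
    rw [card_degreeLT]
    push_cast
    rfl
  set A' : Set (degreeLT k m) := {v | X ^ m + (v : k[X]) ∈ A} with hA'
  have hA'card : A'.ncard = A.ncard := by
    have h1 : (fun v : degreeLT k m => X ^ m + (v : k[X])) '' A' = A := by
      ext E
      constructor
      · rintro ⟨v, hv, rfl⟩
        exact hv
      · intro hE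
        have h2 := hA hE
        rw [mon_eq] at h2
        obtain ⟨p, hp, rfl⟩ := h2
        exact ⟨⟨p, hp⟩, hE, rfl⟩
    rw [← h1, Set.ncard_image_of_injective]
    intro v w h
    exact Subtype.ext (add_left_cancel h)
  set μ : ℝ := ((A'ᶜ : Set (degreeLT k m)).ncard : ℝ) / Nat.card (degreeLT k m) with hμ
  have hqm : (0 : ℝ) < (Nat.card k : ℝ) ^ m := by positivity
  have hcompl : ((A'ᶜ : Set (degreeLT k m)).ncard : ℝ) = (Nat.card k : ℝ) ^ m - A.ncard := by
    have h1 := Set.ncard_add_ncard_compl A'
    rw [hA'card, ] at h1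
    rw [← hcard, ← h1]
    push_cast
    ring
  have hμ1 : μ ≤ Real.exp (-δ) := by
    rw [hμ, hcompl, hcard, div_le_iff₀ hqm]
    have h1 : 1 - δ ≤ Real.exp (-δ) := by
      have := Real.add_one_le_exp (-δ)
      linarith
    have h2 := mul_le_mul_of_nonneg_right h1 hqm.le
    nlinarith
  have hμ0 : 0 ≤ μ := by positivity
  obtain ⟨H, h1, h2⟩ := cover (k := k) A' hμ0 (by rw [hμ, div_mul_cancel₀]; rw [hcard]; exact hqm.ne') s
  have h3 : ((Unc A' H).ncard : ℝ) < 1 := by
    refine h2.trans_lt ?_
    rw [hcard]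
    have h4 : μ ^ (2 ^ s) ≤ Real.exp (-(δ * 2 ^ s)) := by
      refine (pow_le_pow_left₀ hμ0 hμ1 _).trans (le_of_eq ?_)
      rw [← Real.exp_nat_mul]
      congr 1
      push_cast
      ring
    have h5 : (Nat.card k : ℝ) ^ m = Real.exp (m * Real.log (Nat.card k)) := by
      rw [mul_comm, Real.exp_mul, Real.exp_log hq0, Real.rpow_natCast]
    calc μ ^ (2 ^ s) * (Nat.card k : ℝ) ^ m ≤ Real.exp (-(δ * 2 ^ s)) * (Nat.card k : ℝ) ^ m :=
          mul_le_mul_of_nonneg_right h4 hqm.le
      _ = Real.exp (-(δ * 2 ^ s) + m * Real.log (Nat.card k)) := by rw [h5, ← Real.exp_add]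
      _ < 1 := by
          rw [Real.exp_lt_one_iff]
          linarith
  have h6 : Unc A' H = ∅ := by
    have : (Unc A' H).ncard = 0 := by
      have h7 : (Unc A' H).ncard < 1 := by exact_mod_cast h3
      omega
    exact (Set.ncard_eq_zero (Set.toFinite _)).1 this
  have hfd : FiniteDimensional k (degreeLT k m) := Module.Finite.of_finite
  refine ⟨H.map (degreeLT k m).subtype, inferInstance, (Submodule.finrank_map_le _ _).trans h1, ?_, ?_⟩
  · rintro _ ⟨h, -, rfl⟩
    exact mem_degreeLT.1 h.2
  · intro f hf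
    rw [mon_eq] at hf
    obtain ⟨p, hp, rfl⟩ := hf
    by_contra hcon
    push Not at hcon
    have h7 : (⟨p, hp⟩ : degreeLT k m) ∈ Unc A' H := by
      intro h hh hmem
      apply hcon (h : k[X]) ⟨h, hh, rfl⟩
      show X ^ m + p + (h : k[X]) ∈ A
      rw [add_assoc]
      exact hmem
    rw [h6] at h7
    exact h7

end Pool.Agent.V11286.RL
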