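import Mathlib

/-! Few translates of a dense subset of a box cover the box. -/

set_option autoImplicit false

namespace Pool.Agent.V11286.RL

theorem cover_set {G : Type*} [AddCommGroup G] (T S W : Set G) (hT : T.Finite) (hS : S.Finite) (hW : W.Finite)
    (hne : W.Nonempty) (hsub : ∀ u ∈ T, ∀ s ∈ S, s - u ∈ W) {c : ℝ} (hc1 : c ≤ 1)
    (hc : c * (W.ncard : ℝ) ≤ S.ncard) (r : ℕ) :
    ∃ x : Fin r → G, (∀ i, x i ∈ W) ∧ (({u | u ∈ T ∧ ∀ i, u + x i ∉ S}.ncard : ℕ) : ℝ) ≤ (1 - c) ^ r * T.ncard := by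
  classical
  induction r with
  | zero =>
    refine ⟨Fin.elim0, fun i => i.elim0, ?_⟩
    rw [pow_zero, one_mul]
    have h0 : {u | u ∈ T ∧ ∀ i : Fin 0, u + (Fin.elim0 i : G) ∉ S} ⊆ T := fun u hu => hu.1
    exact_mod_cast Set.ncard_le_ncard h0 hT
  | succ r ih =>
    obtain ⟨x, hx1, hx⟩ := ih
    have hfin : {u | u ∈ T ∧ ∀ i, u + x i ∉ S}.Finite := hT.subset fun u hu => hu.1
    set U : Finset G := hfin.toFinset with hU
    have hUc : ({u | u ∈ T ∧ ∀ i, u + x i ∉ S}.ncard : ℝ) = U.card := by rw [hU, Set.ncard_eq_toFinset_card _ hfin]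
    set S' : Finset G := hS.toFinset with hS'
    set W' : Finset G := hW.toFinset with hW'
    have hSc : (S.ncard : ℝ) = S'.card := by rw [hS', Set.ncard_eq_toFinset_card _ hS]
    have hWc : (W.ncard : ℝ) = W'.card := by rw [hW', Set.ncard_eq_toFinset_card _ hW]
    have hmemU : ∀ u, u ∈ U ↔ u ∈ T ∧ ∀ i, u + x i ∉ S := fun u => by rw [hU, Set.Finite.mem_toFinset]; rfl
    have hmemS : ∀ u, u ∈ S' ↔ u ∈ S := fun u => by rw [hS', Set.Finite.mem_toFinset]
    have hmemW : ∀ u, u ∈ W' ↔ u ∈ W := fun u => by rw [hW', Set.Finite.mem_toFinset]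
    have hsum : ∑ w ∈ W', (U.filter fun u => u + w ∈ S').card = U.card * S'.card := by
      simp_rw [Finset.card_filter]
      rw [Finset.sum_comm]
      have h2 : ∀ u ∈ U, (∑ w ∈ W', if u + w ∈ S' then 1 else 0) = S'.card := by
        intro u hu
        rw [← Finset.card_filter]
        apply Finset.card_bij (fun w _ => u + w)
        · intro w hw
          exact (Finset.mem_filter.1 hw).2
        · intro w _ w' _ h
          exact add_left_cancel h
        · intro s hs
          refine ⟨s - u, Finset.mem_filter.2 ⟨(hmemW _).2 (hsub u ((hmemU u).1 hu).1 s ((hmemS s).1 hs)), ?_⟩, ?_⟩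
          · rw [add_sub_cancel]
            exact hs
          · exact add_sub_cancel _ _
      rw [Finset.sum_congr rfl h2, Finset.sum_const, smul_eq_mul]
    have hWne : W'.Nonempty := by
      obtain ⟨w, hw⟩ := hne
      exact ⟨w, (hmemW w).2 hw⟩
    have hW0 : (0 : ℝ) < W'.card := by exact_mod_cast hWne.card_pos
    obtain ⟨y, hyW, hy⟩ : ∃ y ∈ W', c * U.card ≤ ((U.filter fun u => u + y ∈ S').card : ℝ) := by
      by_contra hcon
      push Not at hcon
      have h3 : ∑ w ∈ W', ((U.filter fun u => u + w ∈ S').card : ℝ) < ∑ _w ∈ W', (c * U.card : ℝ) :=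
        Finset.sum_lt_sum_of_nonempty hWne hcon
      have h4 : ∑ w ∈ W', ((U.filter fun u => u + w ∈ S').card : ℝ) = U.card * S'.card := by exact_mod_cast hsum
      rw [h4, Finset.sum_const, nsmul_eq_mul] at h3
      rw [hSc, hWc] at hc
      have h5 : (W'.card : ℝ) * (c * U.card) ≤ U.card * S'.card := by
        calc (W'.card : ℝ) * (c * U.card) = U.card * (c * W'.card) := by ring
          _ ≤ U.card * S'.card := mul_le_mul_of_nonneg_left hc (Nat.cast_nonneg _)
      linarith
    refine ⟨Fin.snoc x y, ?_, ?_⟩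
    · intro i
      refine Fin.lastCases ?_ (fun j => ?_) i
      · rw [Fin.snoc_last]
        exact (hmemW y).1 hyW
      · rw [Fin.snoc_castSucc]
        exact hx1 j
    · have h3 : {u | u ∈ T ∧ ∀ i : Fin (r + 1), u + (Fin.snoc x y : Fin (r + 1) → G) i ∉ S} ⊆
          ((U.filter fun u => ¬ u + y ∈ S' : Finset G) : Set G) := by
        rintro u ⟨hu, hv⟩
        rw [Finset.coe_filter]
        refine ⟨(hmemU u).2 ⟨hu, fun i => ?_⟩, fun hcon => ?_⟩
        · have := hv (Fin.castSucc i)
          rwa [Fin.snoc_castSucc] at this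
        · have := hv (Fin.last r)
          rw [Fin.snoc_last] at this
          exact this ((hmemS _).1 hcon)
      have h4 : (({u | u ∈ T ∧ ∀ i : Fin (r + 1), u + (Fin.snoc x y : Fin (r + 1) → G) i ∉ S}.ncard : ℕ) : ℝ) ≤
          ((U.filter fun u => ¬ u + y ∈ S').card : ℝ) := by
        have := Set.ncard_le_ncard h3 (Finset.finite_toSet _)
        rw [Set.ncard_coe_finset] at this
        exact_mod_cast this
      have h5 : ((U.filter fun u => u + y ∈ S').card : ℝ) + ((U.filter fun u => ¬ u + y ∈ S').card : ℝ) = U.card := by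
        exact_mod_cast Finset.card_filter_add_card_filter_not (s := U) (fun u => u + y ∈ S')
      rw [hUc] at hx
      have h6 : (1 - c) * (U.card : ℝ) ≤ (1 - c) * ((1 - c) ^ r * T.ncard) :=
        mul_le_mul_of_nonneg_left hx (by linarith)
      calc _ ≤ ((U.filter fun u => ¬ u + y ∈ S').card : ℝ) := h4
        _ ≤ (1 - c) * U.card := by linarith
        _ ≤ (1 - c) * ((1 - c) ^ r * T.ncard) := h6
        _ = (1 - c) ^ (r + 1) * T.ncard := by
            rw [pow_succ]
            ring

end Pool.Agent.V11286.RL
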