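import Pool.Agent.V11286.RL.Prog

/-! Few translates of a dense set of monic polynomials over a finite ring cover all monic polynomials. -/

set_option autoImplicit false

open Polynomial

namespace Pool.Agent.V11286.RL

/-- the sum over all translations of the number of the elements of `U` whose translate is not in `A` -/
theorem sum_out {V : Type*} [AddCommGroup V] [Fintype V] [DecidableEq V] (U B : Finset V) :
    ∑ x : V, (U.filter fun v => v + x ∈ B).card = U.card * B.card := by
  have h1 : ∀ x : V, (U.filter fun v => v + x ∈ B).card = ∑ v ∈ U, if v + x ∈ B then 1 else 0 := by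
    intro x
    rw [Finset.card_filter]
  simp_rw [h1]
  rw [Finset.sum_comm]
  have h2 : ∀ v ∈ U, (∑ x : V, if v + x ∈ B then 1 else 0) = B.card := by
    intro v _
    rw [← Finset.card_filter]
    apply Finset.card_bij (fun x _ => v + x)
    · intro x hx
      exact (Finset.mem_filter.1 hx).2
    · intro x _ y _ h
      exact add_left_cancel h
    · intro u hu
      refine ⟨u - v, Finset.mem_filter.2 ⟨Finset.mem_univ _, ?_⟩, ?_⟩
      · rw [add_sub_cancel]
        exact hu
      · exact add_sub_cancel _ _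
  rw [Finset.sum_congr rfl h2, Finset.sum_const, smul_eq_mul]

/-- **Covering by translates.** -/
theorem few {V : Type*} [AddCommGroup V] [Finite V] (A : Set V) {μ : ℝ} (hμ : 0 ≤ μ)
    (hA : (((Aᶜ : Set V).ncard : ℕ) : ℝ) ≤ μ * Nat.card V) (r : ℕ) :
    ∃ x : Fin r → V, (({v : V | ∀ i, v + x i ∉ A}).ncard : ℝ) ≤ μ ^ r * Nat.card V := by
  classical
  have := Fintype.ofFinite V
  have hV : (0 : ℝ) < Nat.card V := by exact_mod_cast Nat.card_pos
  induction r with
  | zero =>
    refine ⟨Fin.elim0, ?_⟩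
    rw [pow_zero, one_mul]
    have := Set.ncard_le_ncard (Set.subset_univ {v : V | ∀ i : Fin 0, v + Fin.elim0 i ∉ A}) (Set.toFinite _)
    rw [Set.ncard_univ] at this
    exact_mod_cast this
  | succ r ih =>
    obtain ⟨x, hx⟩ := ih
    set U : Finset V := ({v : V | ∀ i, v + x i ∉ A}).toFinset with hU
    set B : Finset V := (Aᶜ : Set V).toFinset with hB
    have hUc : (({v : V | ∀ i, v + x i ∉ A}).ncard : ℝ) = U.card := by rw [hU, Set.ncard_eq_toFinset_card']
    have hBc : ((Aᶜ : Set V).ncard : ℝ) = B.card := by rw [hB, Set.ncard_eq_toFinset_card']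
    obtain ⟨y, hy⟩ : ∃ y : V, ((U.filter fun v => v + y ∈ B).card : ℝ) * Nat.card V ≤ U.card * B.card := by
      by_contra hcon
      push Not at hcon
      have h3 : ∑ _x : V, ((U.card * B.card : ℝ)) < ∑ x : V, ((U.filter fun v => v + x ∈ B).card : ℝ) * Nat.card V :=
        Finset.sum_lt_sum_of_nonempty ⟨0, Finset.mem_univ _⟩ fun x _ => hcon x
      have h4 : ∑ x : V, ((U.filter fun v => v + x ∈ B).card : ℝ) = U.card * B.card := by
        exact_mod_cast sum_out U B
      rw [Finset.sum_const, Finset.card_univ, nsmul_eq_mul, ← Nat.card_eq_fintype_card, ← Finset.sum_mul, h4,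
        mul_comm] at h3
      exact lt_irrefl _ h3
    refine ⟨Fin.snoc x y, ?_⟩
    have h3 : {v : V | ∀ i : Fin (r + 1), v + (Fin.snoc x y : Fin (r + 1) → V) i ∉ A} ⊆
        ((U.filter fun v => v + y ∈ B : Finset V) : Set V) := by
      intro v hv
      rw [Finset.coe_filter]
      refine ⟨?_, ?_⟩
      · rw [hU, Set.mem_toFinset]
        intro i
        have := hv (Fin.castSucc i)
        rwa [Fin.snoc_castSucc] at this
      · rw [hB, Set.mem_toFinset]
        have := hv (Fin.last r)
        rwa [Fin.snoc_last] at this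
    have h4 : (({v : V | ∀ i : Fin (r + 1), v + (Fin.snoc x y : Fin (r + 1) → V) i ∉ A}).ncard : ℝ) ≤
        ((U.filter fun v => v + y ∈ B).card : ℝ) := by
      have := Set.ncard_le_ncard h3 (Set.toFinite _)
      rw [Set.ncard_coe_finset] at this
      exact_mod_cast this
    refine h4.trans ?_
    rw [hUc] at hx
    rw [hBc] at hA
    have h5 : (U.card : ℝ) * B.card ≤ (μ ^ r * Nat.card V) * (μ * Nat.card V) :=
      mul_le_mul hx hA (Nat.cast_nonneg _) (by positivity)
    have h7 := hy.trans h5
    have h8 : (μ ^ r * Nat.card V) * (μ * Nat.card V) = (μ ^ (r + 1) * Nat.card V) * Nat.card V := by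
      rw [pow_succ]
      ring
    rw [h8] at h7
    exact le_of_mul_le_mul_right h7 hV

/-- **Monic polynomials.** -/
theorem few_mon {A : Type*} [CommRing A] [Nontrivial A] [Finite A] {μ : ℝ} (hμ : 0 ≤ μ) {m r : ℕ} (S : Set A[X])
    (hS : S ⊆ Mon A m) (hd : (1 - μ) * (Nat.card A : ℝ) ^ m ≤ S.ncard) (hr : μ ^ r * (Nat.card A : ℝ) ^ m < 1) :
    ∃ F : Fin r → A[X], (∀ i, F i ∈ degreeLT A m) ∧ ∀ P ∈ Mon A m, ∃ i, P + F i ∈ S := by
  classical
  have hV : Finite (degreeLT A m) := by
    apply Nat.finite_of_card_ne_zero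
    rw [card_degreeLT]
    exact pow_ne_zero _ Nat.card_pos.ne'
  have hcard : (Nat.card (degreeLT A m) : ℝ) = (Nat.card A : ℝ) ^ m := by
    rw [card_degreeLT]
    push_cast
    rfl
  set A' : Set (degreeLT A m) := {v | X ^ m + (v : A[X]) ∈ S} with hA'
  have hA'card : A'.ncard = S.ncard := by
    have h1 : (fun v : degreeLT A m => X ^ m + (v : A[X])) '' A' = S := by
      ext E
      constructor
      · rintro ⟨v, hv, rfl⟩
        exact hv
      · intro hE
        have h2 := hS hE
        rw [mon_eq] at h2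
        obtain ⟨p, hp, rfl⟩ := h2
        exact ⟨⟨p, hp⟩, hE, rfl⟩
    rw [← h1, Set.ncard_image_of_injective]
    intro v w h
    exact Subtype.ext (add_left_cancel h)
  have hcompl : ((A'ᶜ : Set (degreeLT A m)).ncard : ℝ) = (Nat.card A : ℝ) ^ m - S.ncard := by
    have h1 := Set.ncard_add_ncard_compl A'
    rw [hA'card] at h1
    rw [← hcard, ← h1]
    push_cast
    ring
  obtain ⟨x, hx⟩ := few A' hμ (by rw [hcompl, hcard]; linarith) r
  rw [hcard] at hx
  have h6 : {v : degreeLT A m | ∀ i, v + x i ∉ A'} = ∅ := by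
    have h7 : ({v : degreeLT A m | ∀ i, v + x i ∉ A'}).ncard < 1 := by exact_mod_cast hx.trans_lt hr
    exact (Set.ncard_eq_zero (Set.toFinite _)).1 (by omega)
  refine ⟨fun i => (x i : A[X]), fun i => (x i).2, fun P hP => ?_⟩
  rw [mon_eq] at hP
  obtain ⟨p, hp, rfl⟩ := hP
  by_contra hcon
  push Not at hcon
  have h7 : (⟨p, hp⟩ : degreeLT A m) ∈ {v : degreeLT A m | ∀ i, v + x i ∉ A'} := by
    intro i hmem
    apply hcon i
    show X ^ m + p + (x i : A[X]) ∈ S
    rw [add_assoc]
    exact hmem
  rw [h6] at h7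
  exact h7

end Pool.Agent.V11286.RL
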