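import Pool.Agent.V35.WM

/-! Windows around the points `v_n • α` of a normed space which contain no point of a set `S n`, where the sets `S n`
depend on `n` and have, uniformly in `n`, at most `C X ^ s` points of norm at most `X`: the exceptional `α` have dimension
at most `(s + τ) / (1 - θ)` (the case of one set is in `Pool.Agent.V35.WM`). -/

set_option autoImplicit false

open Finset Filter Topology MeasureTheory

namespace Pool.Agent.V11286.RL

open scoped ENNReal NNReal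
open Pool.Agent.V35.WM

variable {V : Type*} [NormedAddCommGroup V] [NormedSpace ℝ V] {T : Type*}

/-- one bounded range of `α` -/
theorem dim_win (S : ℕ → Set T) (pos : T → V) {v : ℕ → ℝ} {s τ θ D : ℝ} (hpos : ∀ n, 1 ≤ v n) (hτ : 0 ≤ τ)
    (hv : ExpLe v τ) (hs : 0 ≤ s) (hθ1 : θ < 1) (hD : s + τ < D * (1 - θ)) (C : ℝ) (hC : 0 ≤ C)
    (hS : ∀ (n : ℕ) (X : ℝ), 1 ≤ X → {t | t ∈ S n ∧ ‖pos t‖ ≤ X}.Finite ∧
      ({t | t ∈ S n ∧ ‖pos t‖ ≤ X}.ncard : ℝ) ≤ C * X ^ s) (A : ℕ) :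
    dimH {α : V | ‖α‖ ≤ A ∧ ∀ n1 : ℕ, ∃ n : ℕ, n1 ≤ n ∧ ∃ t ∈ S n, ‖pos t - v n • α‖ ≤ (v n) ^ θ} ≤
      ENNReal.ofReal D := by
  borelize V
  have h1θ : 0 < 1 - θ := by linarith
  have hD0 : 0 < D := by
    have h1 : 0 < D * (1 - θ) := lt_of_le_of_lt (by positivity) hD
    exact (pos_iff_pos_of_mul_pos h1).2 h1θ
  have hDn : ((Real.toNNReal D : ℝ≥0) : ℝ) = D := Real.coe_toNNReal D hD0.le
  have hgoal : ENNReal.ofReal D = ((Real.toNNReal D : ℝ≥0) : ℝ≥0∞) := rfl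
  rw [hgoal]
  apply dimH_le_of_hausdorffMeasure_ne_top
  rw [hDn]
  have hvp : ∀ n, 0 < v n := fun n => lt_of_lt_of_le one_pos (hpos n)
  have hX : ∀ m : ℕ, 1 ≤ ((A : ℝ) + 1) * v m := by
    intro m
    have h1 := hpos m
    have h2 : (0 : ℝ) ≤ A := Nat.cast_nonneg A
    nlinarith
  set U : ℕ → Finset T := fun m => (hS m (((A : ℝ) + 1) * v m) (hX m)).1.toFinset with hU
  set K : ℝ := C * ((A : ℝ) + 1) ^ s with hK
  have hK0 : 0 ≤ K := by positivity
  set p : ℝ := D * (1 - θ) - s with hp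
  have hp1 : τ < p := by rw [hp]; linarith
  have hp0 : 0 < p := lt_of_le_of_lt hτ hp1
  have hcard : ∀ m : ℕ, ((U m).card : ℝ) ≤ K * (v m) ^ s := by
    intro m
    have h2 := (hS m (((A : ℝ) + 1) * v m) (hX m)).2
    rw [Real.mul_rpow (by positivity) (hvp m).le, ← mul_assoc] at h2
    rw [Set.ncard_eq_toFinset_card _ (hS m (((A : ℝ) + 1) * v m) (hX m)).1] at h2
    exact h2
  set r0 : ℕ → ℝ := fun n => 2 * (v n) ^ (θ - 1) with hr0
  have hr0p : ∀ n, 0 < r0 n := fun n => mul_pos two_pos (Real.rpow_pos_of_pos (hvp n) _)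
  have hsum : Summable (fun m : ℕ => (2 ^ D * K) * (v m) ^ (-p)) := (hv p hp1).mul_left _
  have hlev : ∀ m : ℕ, ((U m).card : ℝ) * (r0 m) ^ D ≤ (2 ^ D * K) * (v m) ^ (-p) := by
    intro m
    have hm0 := hvp m
    calc ((U m).card : ℝ) * (r0 m) ^ D ≤ (K * (v m) ^ s) * (r0 m) ^ D :=
          mul_le_mul_of_nonneg_right (hcard m) (Real.rpow_nonneg (hr0p m).le _)
      _ = (2 ^ D * K) * ((v m) ^ s * (v m) ^ ((θ - 1) * D)) := by
          rw [hr0, Real.mul_rpow two_pos.le (Real.rpow_nonneg hm0.le _), ← Real.rpow_mul hm0.le]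
          ring
      _ = (2 ^ D * K) * (v m) ^ (-p) := by
          rw [← Real.rpow_add hm0]
          congr 2
          rw [hp]
          ring
  have htv : Tendsto v atTop atTop := tendsto_of_expLe hvp hτ hv
  have hr0t : Tendsto r0 atTop (𝓝 0) := by
    have h1 : Tendsto (fun n => (v n) ^ (-(1 - θ))) atTop (𝓝 0) := (tendsto_rpow_neg_atTop h1θ).comp htv
    have h2 := h1.const_mul 2
    rw [mul_zero] at h2
    refine h2.congr (fun n => ?_)
    rw [hr0]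
    simp only
    congr 2
    ring
  have hr : ∀ ε : ℝ≥0∞, 0 < ε → ∃ N : ℕ, ∀ n : ℕ, N ≤ n → ENNReal.ofReal (r0 n) ≤ ε := by
    intro ε hε
    have h1 := ENNReal.tendsto_ofReal hr0t
    rw [ENNReal.ofReal_zero] at h1
    exact ((h1.eventually (ge_mem_nhds hε))).exists_forall_of_atTop
  set r : ℕ → ℝ≥0∞ := fun n => ⨆ i : ℕ, ENNReal.ofReal (r0 (n + i)) with hrdef
  have hrt : Tendsto r atTop (𝓝 0) := by
    rw [ENNReal.tendsto_atTop_zero]
    intro ε hε
    obtain ⟨N, hN⟩ := hr ε hε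
    exact ⟨N, fun n hn => iSup_le fun i => hN _ (by omega)⟩
  set B : ∀ n : ℕ, (Σ i : ℕ, (U (n + i))) → Set V := fun n q =>
    Metric.closedBall ((v (n + q.1))⁻¹ • pos (q.2 : T)) ((v (n + q.1)) ^ (θ - 1)) with hB
  have hd : ∀ (n : ℕ) (q : Σ i : ℕ, (U (n + i))), Metric.ediam (B n q) ≤ ENNReal.ofReal (r0 (n + q.1)) := by
    intro n q
    refine Metric.ediam_le fun x hx y hy => ?_
    rw [edist_dist]
    apply ENNReal.ofReal_le_ofReal
    rw [hB] at hx hy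
    simp only [Metric.mem_closedBall] at hx hy
    have h1 := dist_triangle_right x y ((v (n + q.1))⁻¹ • pos (q.2 : T))
    rw [hr0]
    simp only
    linarith
  have key := Measure.hausdorffMeasure_le_liminf_tsum (X := V) (β := ℕ)
    (ι := fun n => Σ i : ℕ, (U (n + i))) D
    {α : V | ‖α‖ ≤ A ∧ ∀ n1 : ℕ, ∃ n : ℕ, n1 ≤ n ∧ ∃ t ∈ S n, ‖pos t - v n • α‖ ≤ (v n) ^ θ}
    (l := atTop) r hrt
    (fun n q => B n q)
    (Eventually.of_forall fun n q => by
      exact (hd n q).trans (le_iSup (fun i : ℕ => ENNReal.ofReal (r0 (n + i))) q.1))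
    (Eventually.of_forall fun n α hα => by
      obtain ⟨hαA, hlim⟩ := hα
      obtain ⟨m, hm1, t, ht, hm3⟩ := hlim n
      obtain ⟨i, rfl⟩ := Nat.exists_eq_add_of_le hm1
      have hmp : 0 < v (n + i) := hvp _
      have hw : (v (n + i)) ^ θ ≤ v (n + i) := by
        calc (v (n + i)) ^ θ ≤ (v (n + i)) ^ (1 : ℝ) := Real.rpow_le_rpow_of_exponent_le (hpos _) hθ1.le
          _ = v (n + i) := Real.rpow_one _
      have hmem : t ∈ U (n + i) := by
        rw [hU, Set.Finite.mem_toFinset]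
        refine ⟨ht, ?_⟩
        have h1 : ‖v (n + i) • α‖ ≤ A * v (n + i) := by
          rw [norm_smul, Real.norm_of_nonneg hmp.le, mul_comm]
          exact mul_le_mul_of_nonneg_right hαA hmp.le
        have h2 : ‖pos t‖ ≤ ‖pos t - v (n + i) • α‖ + ‖v (n + i) • α‖ := by
          have := norm_add_le (pos t - v (n + i) • α) (v (n + i) • α)
          rwa [sub_add_cancel] at this
        linarith
      rw [Set.mem_iUnion]
      refine ⟨⟨i, ⟨_, hmem⟩⟩, ?_⟩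
      rw [hB]
      simp only [Metric.mem_closedBall]
      rw [dist_eq_norm]
      have h3 : α - (v (n + i))⁻¹ • pos t = -((v (n + i))⁻¹ • (pos t - v (n + i) • α)) := by
        rw [smul_sub, smul_smul, inv_mul_cancel₀ hmp.ne', one_smul]
        abel
      rw [h3, norm_neg, norm_smul, norm_inv, Real.norm_of_nonneg hmp.le, Real.rpow_sub_one hmp.ne',
        div_eq_inv_mul]
      exact mul_le_mul_of_nonneg_left hm3 (inv_nonneg.2 hmp.le))
  refine ne_top_of_le_ne_top ?_ key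
  have hnn : ∀ m : ℕ, 0 ≤ (2 ^ D * K) * (v m) ^ (-p) := fun m =>
    mul_nonneg (by positivity) (Real.rpow_nonneg (hvp m).le _)
  have htot : (∑' m : ℕ, ENNReal.ofReal ((2 ^ D * K) * (v m) ^ (-p))) ≠ ⊤ := by
    rw [← ENNReal.ofReal_tsum_of_nonneg hnn hsum]
    exact ENNReal.ofReal_ne_top
  have hbound : ∀ n : ℕ, (∑' q : Σ i : ℕ, (U (n + i)), Metric.ediam (B n q) ^ D) ≤
      ∑' m : ℕ, ENNReal.ofReal ((2 ^ D * K) * (v m) ^ (-p)) := by
    intro n
    rw [ENNReal.tsum_sigma']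
    calc (∑' i : ℕ, ∑' x : (U (n + i)), Metric.ediam (B n ⟨i, x⟩) ^ D)
        ≤ ∑' i : ℕ, ENNReal.ofReal ((2 ^ D * K) * (v (n + i)) ^ (-p)) := by
          apply ENNReal.tsum_le_tsum
          intro i
          have h1 : ∀ x : (U (n + i)), Metric.ediam (B n ⟨i, x⟩) ^ D ≤ ENNReal.ofReal ((r0 (n + i)) ^ D) := by
            intro x
            rw [← ENNReal.ofReal_rpow_of_pos (hr0p _)]
            exact ENNReal.rpow_le_rpow (hd n ⟨i, x⟩) hD0.le
          refine (ENNReal.tsum_le_tsum h1).trans ?_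
          rw [tsum_fintype]
          simp only [Finset.sum_const, Finset.card_univ, Fintype.card_coe, nsmul_eq_mul]
          rw [← ENNReal.ofReal_natCast, ← ENNReal.ofReal_mul (by positivity)]
          apply ENNReal.ofReal_le_ofReal
          exact hlev (n + i)
      _ ≤ ∑' m : ℕ, ENNReal.ofReal ((2 ^ D * K) * (v m) ^ (-p)) :=
          ENNReal.tsum_comp_le_tsum_of_injective (f := fun i : ℕ => n + i)
            (fun a b h => by simpa using h) (fun m : ℕ => ENNReal.ofReal ((2 ^ D * K) * (v m) ^ (-p)))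
  refine ne_top_of_le_ne_top htot ?_
  apply Filter.liminf_le_of_le
  · isBoundedDefault
  · intro b hb
    obtain ⟨n, hn⟩ := hb.exists
    exact hn.trans (hbound n)


/-- **Windows of sequences of sets.** -/
theorem dim_bad {S : ℕ → Set T} {pos : T → V} {v : ℕ → ℝ} {s τ θ : ℝ} (hpos : ∀ n, 1 ≤ v n) (hτ : 0 ≤ τ)
    (hv : ExpLe v τ) (hs : 0 ≤ s) (hθ1 : θ < 1) (C : ℝ)
    (hS : ∀ (n : ℕ) (X : ℝ), 1 ≤ X → {t | t ∈ S n ∧ ‖pos t‖ ≤ X}.Finite ∧
      ({t | t ∈ S n ∧ ‖pos t‖ ≤ X}.ncard : ℝ) ≤ C * X ^ s) :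
    dimH {α : V | ∀ n1 : ℕ, ∃ n : ℕ, n1 ≤ n ∧ ∃ t ∈ S n, ‖pos t - v n • α‖ ≤ (v n) ^ θ} ≤
      ENNReal.ofReal ((s + τ) / (1 - θ)) := by
  have h1θ : 0 < 1 - θ := by linarith
  set F : ℕ → Set V := fun A => {α : V | ‖α‖ ≤ A ∧ ∀ n1 : ℕ, ∃ n : ℕ, n1 ≤ n ∧
    ∃ t ∈ S n, ‖pos t - v n • α‖ ≤ (v n) ^ θ} with hF
  have hsub : {α : V | ∀ n1 : ℕ, ∃ n : ℕ, n1 ≤ n ∧ ∃ t ∈ S n, ‖pos t - v n • α‖ ≤ (v n) ^ θ} ⊆ ⋃ A, F A :=
    fun α hα => Set.mem_iUnion.2 ⟨⌈‖α‖⌉₊, Nat.le_ceil _, hα⟩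
  refine (dimH_mono hsub).trans ?_
  rw [dimH_iUnion]
  apply iSup_le
  intro A
  apply ENNReal.le_of_forall_pos_le_add
  intro ε hε _
  have hε' : (0 : ℝ) < ε := by exact_mod_cast hε
  have h1 := dim_win S pos hpos hτ hv hs hθ1
    (D := (s + τ) / (1 - θ) + ε) (by
      rw [add_mul, div_mul_cancel₀ _ h1θ.ne']
      have : 0 < (ε : ℝ) * (1 - θ) := mul_pos hε' h1θ
      linarith) |C| (abs_nonneg C) (fun n X hX => ⟨(hS n X hX).1, (hS n X hX).2.trans
        (mul_le_mul_of_nonneg_right (le_abs_self C) (by positivity))⟩) A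
  rw [ENNReal.ofReal_add (by positivity) (by positivity), ENNReal.ofReal_coe_nnreal] at h1
  exact h1

end Pool.Agent.V11286.RL
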