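import Pool.Agent.V11286.RL.Cnt
import Pool.Agent.H322R2.AsmE

/-! Plane curves with large integer points, counted by one coefficient of low degree. -/

set_option autoImplicit false

open Finset

namespace Pool.Agent.V11286.RL

open Pool.Agent.H322R2

lemma poly_eq_FM {d : ℕ} (c : ↥(Ix d) → ℤ) : poly c = FM c := rfl

lemma exists_poly {d : ℕ} {F : MvPolynomial (Fin 2) ℤ} (hF : F.totalDegree ≤ d) : ∃ c : ↥(Ix d) → ℤ, poly c = F := by
  obtain ⟨H, hH⟩ : ∃ H : ℕ, ∀ m, |F.coeff m| ≤ (H : ℤ) := by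
    refine ⟨∑ m ∈ F.support, (F.coeff m).natAbs, fun m => ?_⟩
    by_cases hm : m ∈ F.support
    · have h1 := Finset.single_le_sum (f := fun m => (F.coeff m).natAbs) (fun _ _ => Nat.zero_le _) hm
      rw [Int.abs_eq_natAbs]
      exact_mod_cast h1
    · rw [MvPolynomial.notMem_support_iff.1 hm, abs_zero]
      positivity
  obtain ⟨c, -, hc⟩ := FM_memV.1 ⟨hF, hH⟩
  exact ⟨c, hc⟩

lemma card_top (d : ℕ) (hd : 4 ≤ d) : (top d (Ix d)).card = 4 * d - 2 := by
  have h1 : (Ix d).card = (top d (Ix d)).card + (Ix (d - 4)).card := by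
    have h2 : Ix (d - 4) = (Ix d).filter (fun m => ¬ d ≤ m.1 + m.2 + 3) := by
      ext m
      rw [Finset.mem_filter, mem_Ix, mem_Ix]
      omega
    rw [h2, top]
    exact (Finset.card_filter_add_card_filter_not (s := Ix d) (fun m => d ≤ m.1 + m.2 + 3)).symm
  rw [card_Ix, card_Ix] at h1
  obtain ⟨e, rfl⟩ : ∃ e, d = e + 4 := ⟨d - 4, by omega⟩
  have h3 : 2 * ((e + 4 + 1) * (e + 4 + 2) / 2) = (e + 4 + 1) * (e + 4 + 2) :=
    Nat.mul_div_cancel' (Nat.even_mul_succ_self (e + 5)).two_dvd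
  have h4 : 2 * ((e + 4 - 4 + 1) * (e + 4 - 4 + 2) / 2) = (e + 4 - 4 + 1) * (e + 4 - 4 + 2) := by
    rw [Nat.add_sub_cancel]
    exact Nat.mul_div_cancel' (Nat.even_mul_succ_self (e + 1)).two_dvd
  rw [Nat.add_sub_cancel] at h4 h1
  have h5 : (e + 4 + 1) * (e + 4 + 2) = e * e + 11 * e + 30 := by ring
  have h6 : (e + 1) * (e + 2) = e * e + 3 * e + 2 := by ring
  rw [h5] at h1 h3
  rw [h6] at h1 h4
  generalize e * e = q at *
  omega

/-- The integers `a` which are the coefficient at the monomial `x ^ i y ^ j` of some polynomial in `Exc d` whose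
coefficients at the monomials of degree larger than `d - 4` are at most `B |a|` in absolute value. -/
def Bad (d i j : ℕ) (B : ℤ → ℝ) : Set ℤ :=
  {a | ∃ F : MvPolynomial (Fin 2) ℤ, F ∈ Exc d ∧ F.coeff (Finsupp.single 0 i + Finsupp.single 1 j) = a ∧
    ∀ m : Fin 2 →₀ ℕ, d ≤ m 0 + m 1 + 3 → |((F.coeff m : ℤ) : ℝ)| ≤ B a}

/-- **The count.** -/
theorem count_one {d i j : ℕ} (hd : 4 ≤ d) (hij : i + j + 4 ≤ d) (B : ℤ → ℝ) (Y : ℕ) (A : Finset ℤ)
    (hA : ∀ a ∈ A, a ∈ Bad d i j B ∧ B a ≤ Y) : A.card ≤ num d * (2 * Y + 1) ^ (4 * d - 2) := by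
  classical
  have hch : ∀ a : A, ∃ c : ↥(Ix d) → ℤ, poly c ∈ Exc d ∧ c ⟨(i, j), mem_Ix.2 (by omega)⟩ = a.1 ∧
      ∀ m : ↥(Ix d), d ≤ m.1.1 + m.1.2 + 3 → |c m| ≤ (Y : ℤ) := by
    intro a
    obtain ⟨⟨F, h1, h2, h3⟩, h4⟩ := hA a.1 a.2
    obtain ⟨c, rfl⟩ := exists_poly (d := d) (le_of_eq h1.1.1)
    refine ⟨c, h1, ?_, fun m hm => ?_⟩
    · rw [← h2]
      exact (coeff_poly c ⟨(i, j), mem_Ix.2 (by omega)⟩).symm
    · have h5 := (h3 (Finsupp.single 0 m.1.1 + Finsupp.single 1 m.1.2) (by simpa using hm)).trans h4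
      rw [coeff_poly] at h5
      rw [← Int.cast_abs] at h5
      exact_mod_cast h5
  choose c hc1 hc2 hc3 using hch
  have hinj : Function.Injective c := by
    intro a a' h
    apply Subtype.ext
    rw [← hc2 a, ← hc2 a', h]
  set S : Finset (↥(Ix d) → ℤ) := Finset.univ.image c with hS
  have hcard : S.card = A.card := by
    rw [hS, Finset.card_image_of_injective _ hinj, Finset.card_univ, Fintype.card_coe]
  have hSm : ∀ b ∈ S, poly b ∈ Exc d ∧ ∀ m : ↥(Ix d), d ≤ m.1.1 + m.1.2 + 3 → |b m| ≤ (Y : ℤ) := by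
    intro b hb
    obtain ⟨a, -, rfl⟩ := Finset.mem_image.1 hb
    exact ⟨hc1 a, hc3 a⟩
  set f : (↥(Ix d) → ℤ) → (↥(top d (Ix d)) → ℤ) := fun b m => b ⟨m.1, (Finset.mem_filter.1 m.2).1⟩ with hf
  have h1 := Finset.card_le_mul_card_image (f := f) S (num d) (by
    intro b _
    apply fibre hd (0 : MvPolynomial (Fin 2) ℤ)
    · intro b' hb'
      rw [zero_add]
      exact (hSm b' (Finset.mem_filter.1 hb').1).1
    · intro b' hb' b'' hb'' m hm
      have e1 := (Finset.mem_filter.1 hb').2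
      have e2 := (Finset.mem_filter.1 hb'').2
      have hm' : m.1 ∈ top d (Ix d) := Finset.mem_filter.2 ⟨m.2, hm⟩
      exact congrFun (e1.trans e2.symm) ⟨m.1, hm'⟩)
  have h2 : (S.image f).card ≤ (2 * Y + 1) ^ (top d (Ix d)).card := by
    calc (S.image f).card ≤ (Fintype.piFinset (fun _ : ↥(top d (Ix d)) => Finset.Icc (-(Y : ℤ)) Y)).card := by
          apply Finset.card_le_card
          intro b hb
          obtain ⟨b', hb', rfl⟩ := Finset.mem_image.1 hb
          rw [Fintype.mem_piFinset]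
          intro m
          rw [Finset.mem_Icc]
          exact abs_le.1 ((hSm b' hb').2 _ (Finset.mem_filter.1 m.2).2)
      _ = (2 * Y + 1) ^ (top d (Ix d)).card := by
          rw [Fintype.card_piFinset, Finset.prod_const, Int.card_Icc, Finset.card_univ, Fintype.card_coe]
          congr 1
          omega
  rw [← hcard]
  rw [card_top d hd] at h2
  exact h1.trans (Nat.mul_le_mul_left _ h2)

end Pool.Agent.V11286.RL
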