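import Mathlib

/-! Sets of monic polynomials over finite rings: counting, translations, Roth's theorem. -/

set_option autoImplicit false

open Polynomial Filter

namespace Pool.Agent.V11286.RL

/-- the monic polynomials of degree `m` -/
def Mon (A : Type*) [CommRing A] (m : ℕ) : Set A[X] := {E | E.Monic ∧ E.natDegree = m}

section
variable {A : Type*} [CommRing A] [Nontrivial A]

lemma mon_eq (m : ℕ) : Mon A m = (fun p : A[X] => X ^ m + p) '' (degreeLT A m : Set A[X]) := by
  ext E
  constructor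
  · rintro ⟨h1, h2⟩
    refine ⟨E - X ^ m, ?_, by simp⟩
    rw [SetLike.mem_coe, mem_degreeLT, degree_lt_iff_coeff_zero]
    intro j hj
    rw [coeff_sub, coeff_X_pow]
    rcases eq_or_lt_of_le hj with h | h
    · subst h
      rw [if_pos rfl, ← h2, ← leadingCoeff, h1.leadingCoeff, sub_self]
    · rw [if_neg (by omega), coeff_eq_zero_of_natDegree_lt (by omega), sub_self]
  · rintro ⟨p, hp, rfl⟩
    rw [SetLike.mem_coe, mem_degreeLT] at hp
    exact ⟨monic_X_pow_add hp, natDegree_eq_of_degree_eq_some (by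
      rw [degree_add_eq_left_of_degree_lt (by rw [degree_X_pow]; exact hp), degree_X_pow])⟩

omit [Nontrivial A] in
lemma card_degreeLT [Finite A] (m : ℕ) : Nat.card (degreeLT A m) = Nat.card A ^ m := by
  rw [Nat.card_congr (degreeLTEquiv A m).toEquiv, Nat.card_fun, Nat.card_eq_fintype_card (α := Fin m), Fintype.card_fin]

lemma ncard_mon [Finite A] (m : ℕ) : (Mon A m).ncard = Nat.card A ^ m := by
  rw [mon_eq, Set.ncard_image_of_injective _ (add_right_injective _), ← card_degreeLT m]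
  rfl

lemma finite_mon [Finite A] (m : ℕ) : (Mon A m).Finite := by
  apply Set.finite_of_ncard_ne_zero
  rw [ncard_mon]
  exact pow_ne_zero _ Nat.card_pos.ne'

end

/-- intersections of preimages of a large set under injective maps -/
theorem inter_card {α : Type*} {T S : Set α} (hT : T.Finite) (hST : S ⊆ T) {r : ℕ} (φ : Fin r → α → α)
    (hφ : ∀ i, Set.InjOn (φ i) T) (hφT : ∀ i, Set.MapsTo (φ i) T T) {η : ℝ}
    (hS : (1 - η) * (T.ncard : ℝ) ≤ S.ncard) :
    (1 - r * η) * (T.ncard : ℝ) ≤ {E | E ∈ T ∧ ∀ i, φ i E ∈ S}.ncard := by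
  classical
  have h1 : ∀ i, ({E | E ∈ T ∧ φ i E ∉ S}.ncard : ℝ) ≤ η * T.ncard := by
    intro i
    have h2 : {E | E ∈ T ∧ φ i E ∉ S}.ncard ≤ (T \ S).ncard := by
      refine Set.ncard_le_ncard_of_injOn (φ i) ?_ ((hφ i).mono fun E hE => hE.1) (hT.subset Set.sdiff_subset)
      intro E hE
      exact ⟨hφT i hE.1, hE.2⟩
    have h3 : ((T \ S).ncard : ℝ) = T.ncard - S.ncard := by
      rw [Set.ncard_sdiff hST (hT.subset hST), Nat.cast_sub (Set.ncard_le_ncard hST hT)]
    have h4 : ({E | E ∈ T ∧ φ i E ∉ S}.ncard : ℝ) ≤ ((T \ S).ncard : ℝ) := by exact_mod_cast h2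
    rw [h3] at h4
    linarith
  have h5 : T ⊆ {E | E ∈ T ∧ ∀ i, φ i E ∈ S} ∪ ⋃ i : Fin r, {E | E ∈ T ∧ φ i E ∉ S} := by
    intro E hE
    by_cases h : ∀ i, φ i E ∈ S
    · exact Or.inl ⟨hE, h⟩
    · push Not at h
      obtain ⟨i, hi⟩ := h
      exact Or.inr (Set.mem_iUnion.2 ⟨i, hE, hi⟩)
  have hfin1 : {E | E ∈ T ∧ ∀ i, φ i E ∈ S}.Finite := hT.subset fun E hE => hE.1
  have hfin2 : ∀ i : Fin r, {E | E ∈ T ∧ φ i E ∉ S}.Finite := fun i => hT.subset fun E hE => hE.1
  have h6 : T.ncard ≤ {E | E ∈ T ∧ ∀ i, φ i E ∈ S}.ncard + ∑ i : Fin r, {E | E ∈ T ∧ φ i E ∉ S}.ncard := by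
    refine (Set.ncard_le_ncard h5 (hfin1.union (Set.finite_iUnion hfin2))).trans
      ((Set.ncard_union_le _ _).trans (Nat.add_le_add_left ?_ _))
    have h7 := Finset.card_biUnion_le (s := (Finset.univ : Finset (Fin r))) (t := fun i => (hfin2 i).toFinset)
    have h8 : (⋃ i : Fin r, {E | E ∈ T ∧ φ i E ∉ S}) =
        ((Finset.univ.biUnion fun i => (hfin2 i).toFinset : Finset α) : Set α) := by
      ext E
      simp
    rw [h8, Set.ncard_coe_finset]
    refine h7.trans (le_of_eq (Finset.sum_congr rfl fun i _ => ?_))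
    rw [Set.ncard_eq_toFinset_card _ (hfin2 i)]
  have h9 : (T.ncard : ℝ) ≤ {E | E ∈ T ∧ ∀ i, φ i E ∈ S}.ncard + ∑ i : Fin r, (η * T.ncard) := by
    calc (T.ncard : ℝ) ≤ (({E | E ∈ T ∧ ∀ i, φ i E ∈ S}.ncard + ∑ i : Fin r, {E | E ∈ T ∧ φ i E ∉ S}.ncard : ℕ) : ℝ) := by
          exact_mod_cast h6
      _ = {E | E ∈ T ∧ ∀ i, φ i E ∈ S}.ncard + ∑ i : Fin r, ({E | E ∈ T ∧ φ i E ∉ S}.ncard : ℝ) := by
          push_cast
          ring
      _ ≤ _ := by
          gcongr with i
          exact h1 i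
  rw [Finset.sum_const, Finset.card_univ, Fintype.card_fin, nsmul_eq_mul] at h9
  linarith

section
variable {k : Type*} [Field k] [Finite k]

/-- **Differences.** Of `r > 1 / δ` polynomials of degree less than `n` two have a difference which is the difference of
two members of a set of monic polynomials of degree `n` of density at least `δ`. -/
theorem diffs {δ : ℝ} {n r : ℕ} (hr : 1 < r * δ) (A : Set k[X]) (hA : A ⊆ Mon k n)
    (hδ : δ * (Nat.card k : ℝ) ^ n ≤ A.ncard) (E : Fin r → k[X]) (hE : ∀ i, E i ∈ degreeLT k n) :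
    ∃ i j, i < j ∧ ∃ D ∈ A, D + (E i - E j) ∈ A := by
  classical
  by_contra hcon
  push Not at hcon
  have hfin : A.Finite := (finite_mon n).subset hA
  have hq : (0 : ℝ) < (Nat.card k : ℝ) ^ n := by
    have : 0 < Nat.card k := Nat.card_pos
    positivity
  -- the sets `A - E i` are disjoint
  have hdis : (Set.univ : Set (Fin r)).PairwiseDisjoint (fun i => (fun D => D - E i) '' A) := by
    have key : ∀ i j : Fin r, i < j → Disjoint ((fun D => D - E i) '' A) ((fun D => D - E j) '' A) := by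
      intro i j hij
      rw [Set.disjoint_left]
      rintro _ ⟨D, hD, rfl⟩ ⟨D', hD', h⟩
      apply hcon i j hij D' hD'
      have h2 : D' + (E i - E j) = D := by
        simp only at h
        linear_combination h
      rw [h2]
      exact hD
    intro i _ j _ hij
    rcases lt_or_gt_of_ne hij with h | h
    · exact key i j h
    · exact (key j i h).symm
  have hsub : (⋃ i : Fin r, (fun D => D - E i) '' A) ⊆ Mon k n := by
    intro D hD
    obtain ⟨i, D', hD', rfl⟩ := Set.mem_iUnion.1 hD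
    have h1 := hA hD'
    rw [mon_eq] at h1 ⊢
    obtain ⟨p, hp, rfl⟩ := h1
    exact ⟨p - E i, (degreeLT k n).sub_mem hp (hE i), by simp only; ring⟩
  have h3 : ∀ i : Fin r, ((fun D => D - E i) '' A).Finite := fun i => hfin.image _
  have h4 : (⋃ i : Fin r, (fun D => D - E i) '' A).ncard = ∑ _i : Fin r, A.ncard := by
    have h5 : (⋃ i : Fin r, (fun D => D - E i) '' A) =
        ((Finset.univ.biUnion fun i => (h3 i).toFinset : Finset k[X]) : Set k[X]) := by
      ext D
      simp
    rw [h5, Set.ncard_coe_finset, Finset.card_biUnion]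
    · refine Finset.sum_congr rfl fun i _ => ?_
      rw [← Set.ncard_eq_toFinset_card _ (h3 i), Set.ncard_image_of_injective _ sub_left_injective]
    · intro i _ j _ hij
      have h6 := hdis (Set.mem_univ i) (Set.mem_univ j) hij
      rw [Function.onFun] at h6
      show Disjoint ((h3 i).toFinset) ((h3 j).toFinset)
      rw [← Finset.disjoint_coe, Set.Finite.coe_toFinset, Set.Finite.coe_toFinset]
      exact h6
  have h7 := Set.ncard_le_ncard hsub (finite_mon n)
  rw [h4, ncard_mon, Finset.sum_const, Finset.card_univ, Fintype.card_fin, smul_eq_mul] at h7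
  have h8 : (r : ℝ) * (A.ncard : ℝ) ≤ (Nat.card k : ℝ) ^ n := by exact_mod_cast h7
  have h9 : (r : ℝ) * (δ * (Nat.card k : ℝ) ^ n) ≤ (Nat.card k : ℝ) ^ n :=
    (mul_le_mul_of_nonneg_left hδ (Nat.cast_nonneg r)).trans h8
  nlinarith

/-- **Roth's theorem** for monic polynomials of large degree. -/
theorem roth {δ : ℝ} (hδ0 : 0 < δ) : ∀ᶠ n : ℕ in atTop, ∀ A : Set k[X], A ⊆ Mon k n →
    δ * (Nat.card k : ℝ) ^ n ≤ A.ncard →
    ∃ D E : k[X], E ≠ 0 ∧ E ∈ degreeLT k n ∧ D ∈ A ∧ D + E ∈ A ∧ D + 2 * E ∈ A := by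
  classical
  have hq : 1 < Nat.card k := Finite.one_lt_card
  have htend : Tendsto (fun n : ℕ => Nat.card k ^ n) atTop atTop := tendsto_pow_atTop_atTop_of_one_lt hq
  filter_upwards [htend.eventually_ge_atTop (cornersTheoremBound δ)] with n hn A hA hδ
  have : Finite (degreeLT k n) := Nat.finite_of_card_ne_zero (by
    rw [card_degreeLT]
    exact pow_ne_zero _ (by omega))
  let _ : Fintype (degreeLT k n) := Fintype.ofFinite _
  have hfin : A.Finite := (finite_mon n).subset hA
  let B : Finset (degreeLT k n) := Finset.univ.filter fun p => X ^ n + (p : k[X]) ∈ A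
  have hB : B.card = A.ncard := by
    rw [← Set.ncard_coe_finset]
    have h1 : A = (fun p : degreeLT k n => X ^ n + (p : k[X])) '' (B : Set (degreeLT k n)) := by
      ext D
      constructor
      · intro hD
        have h1 := hA hD
        rw [mon_eq] at h1
        obtain ⟨p, hp, rfl⟩ := h1
        exact ⟨⟨p, hp⟩, Finset.mem_coe.2 (Finset.mem_filter.2 ⟨Finset.mem_univ _, hD⟩), rfl⟩
      · rintro ⟨p, hp, rfl⟩
        exact (Finset.mem_filter.1 (Finset.mem_coe.1 hp)).2
    rw [h1, Set.ncard_image_of_injective]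
    intro p p' h
    exact Subtype.ext (add_left_cancel h)
  have hcard : Fintype.card (degreeLT k n) = Nat.card k ^ n := by
    rw [← Nat.card_eq_fintype_card, card_degreeLT]
  have h3 := roth_3ap_theorem δ hδ0 (by rw [hcard]; exact hn) B (by
    rw [hcard, hB]
    push_cast
    exact hδ)
  unfold ThreeAPFree at h3
  push Not at h3
  obtain ⟨a, ha, b, hb, c, hc, habc, hab⟩ := h3
  have ha' := (Finset.mem_filter.1 (Finset.mem_coe.1 ha)).2
  have hb' := (Finset.mem_filter.1 (Finset.mem_coe.1 hb)).2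
  have hc' := (Finset.mem_filter.1 (Finset.mem_coe.1 hc)).2
  refine ⟨X ^ n + (a : k[X]), (b : k[X]) - (a : k[X]), ?_, (degreeLT k n).sub_mem b.2 a.2, ha', ?_, ?_⟩
  · intro h
    apply hab
    exact Subtype.ext (sub_eq_zero.1 h).symm
  · have : X ^ n + (a : k[X]) + ((b : k[X]) - (a : k[X])) = X ^ n + (b : k[X]) := by ring
    rw [this]
    exact hb'
  · have h4 : (a : k[X]) + (c : k[X]) = (b : k[X]) + (b : k[X]) := congrArg Subtype.val habc
    have : X ^ n + (a : k[X]) + 2 * ((b : k[X]) - (a : k[X])) = X ^ n + (c : k[X]) := by linear_combination -h4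
    rw [this]
    exact hc'

/-- **Differences which are multiples of a given polynomial**, with a quotient of bounded degree. -/
theorem multiples {δ : ℝ} (hδ0 : 0 < δ) : ∃ h : ℕ, ∀ (n : ℕ) (A : Set k[X]), A ⊆ Mon k n →
    δ * (Nat.card k : ℝ) ^ n ≤ A.ncard → ∀ E : k[X], E ≠ 0 → E.natDegree + h ≤ n →
    ∃ g : k[X], g ≠ 0 ∧ g.degree < h ∧ ∃ D ∈ A, D + E * g ∈ A := by
  have hq : 1 < Nat.card k := Finite.one_lt_card
  obtain ⟨r, hr⟩ := exists_nat_gt (1 / δ)
  rw [div_lt_iff₀ hδ0] at hr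
  obtain ⟨s, hs⟩ := pow_unbounded_of_one_lt (r : ℕ) hq
  refine ⟨s, fun n A hA h7 E hE0 hE => ?_⟩
  have hcard : Nat.card (degreeLT k s) = Nat.card k ^ s := card_degreeLT s
  have hfin : Finite (degreeLT k s) := Nat.finite_of_card_ne_zero (by
    rw [hcard]
    exact pow_ne_zero _ (by omega))
  let e := Finite.equivFin (degreeLT k s)
  have hr' : 1 < ((Nat.card (degreeLT k s) : ℕ) : ℝ) * δ := by
    refine lt_of_lt_of_le hr (mul_le_mul_of_nonneg_right ?_ hδ0.le)
    rw [hcard]
    exact_mod_cast hs.le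
  obtain ⟨i, j, hij, D, hD, hD'⟩ := diffs hr' _ hA h7
    (fun i => E * ((e.symm i : degreeLT k s) : k[X])) (fun i => by
      rw [mem_degreeLT]
      have h9 := mem_degreeLT.1 (e.symm i).2
      rcases eq_or_ne ((e.symm i : degreeLT k s) : k[X]) 0 with h10 | h10
      · rw [h10, mul_zero, degree_zero]
        exact WithBot.bot_lt_coe n
      · rw [degree_eq_natDegree (mul_ne_zero hE0 h10), natDegree_mul hE0 h10]
        rw [degree_eq_natDegree h10] at h9
        have h11 : ((e.symm i : degreeLT k s) : k[X]).natDegree < s := by exact_mod_cast h9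
        exact_mod_cast (by omega : E.natDegree + ((e.symm i : degreeLT k s) : k[X]).natDegree < n))
  refine ⟨((e.symm i : degreeLT k s) : k[X]) - ((e.symm j : degreeLT k s) : k[X]), ?_, ?_, D, hD, ?_⟩
  · intro h12
    have h13 : e.symm i = e.symm j := Subtype.ext (sub_eq_zero.1 h12)
    exact absurd (e.symm.injective h13) hij.ne
  · exact mem_degreeLT.1 ((degreeLT k s).sub_mem (e.symm i).2 (e.symm j).2)
  · rw [mul_sub]
    exact hD'

end

end Pool.Agent.V11286.RL
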