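import Pool.Agent.H322R2.AsmE

/-! The integral points of bounded norm of a subspace, and the polynomials which vanish at given points. -/

set_option autoImplicit false

open Finset Module

namespace Pool.Agent.V11286.RL

open Pool.Agent.H322R2

/-- few coordinates determine the vectors of a subspace -/
theorem exists_coords {ι : Type*} [Fintype ι] (V : Submodule ℝ (ι → ℝ)) :
    ∃ J : Finset ι, J.card ≤ finrank ℝ V ∧ ∀ x ∈ V, (∀ j ∈ J, x j = 0) → x = 0 := by
  classical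
  obtain ⟨κ, a, ha, hspan, hli⟩ := exists_linearIndependent' ℝ
    (fun i : ι => ((LinearMap.proj i : (ι → ℝ) →ₗ[ℝ] ℝ).comp V.subtype : Dual ℝ V))
  have : Fintype κ := Fintype.ofInjective a ha
  refine ⟨Finset.univ.image a, ?_, fun x hx h0 => ?_⟩
  · rw [Finset.card_image_of_injective _ ha, Finset.card_univ, ← Subspace.dual_finrank_eq (K := ℝ) (V := V)]
    exact hli.fintype_card_le_finrank
  · have h1 : ∀ g ∈ Submodule.span ℝ (Set.range (fun i : ι =>
        ((LinearMap.proj i : (ι → ℝ) →ₗ[ℝ] ℝ).comp V.subtype : Dual ℝ V))), g ⟨x, hx⟩ = 0 := by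
      rw [← hspan]
      intro g hg
      induction hg using Submodule.span_induction with
      | mem g hg =>
        obtain ⟨k, rfl⟩ := hg
        exact h0 (a k) (Finset.mem_image_of_mem _ (Finset.mem_univ k))
      | zero => rfl
      | add g g' _ _ h h' => rw [LinearMap.add_apply, h, h', add_zero]
      | smul c g _ h => rw [LinearMap.smul_apply, h, smul_zero]
    funext i
    exact h1 _ (Submodule.subset_span ⟨i, rfl⟩)

/-- the integral points of norm at most `H` of a subspace -/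
theorem card_le {ι : Type*} [Fintype ι] [DecidableEq ι] (V : Submodule ℝ (ι → ℝ)) (H : ℕ) (A : Finset (ι → ℤ))
    (hA : ∀ c ∈ A, (∀ i, |c i| ≤ (H : ℤ)) ∧ (fun i => (c i : ℝ)) ∈ V) : A.card ≤ (2 * H + 1) ^ (finrank ℝ V) := by
  classical
  obtain ⟨J, hJ, hJ0⟩ := exists_coords V
  have h1 : A.card ≤ (Bx ↥J H).card := by
    apply Finset.card_le_card_of_injOn (fun c => (fun j : ↥J => c j.1))
    · intro c hc
      rw [Finset.mem_coe, mem_Bx]
      intro j
      exact (hA c hc).1 j.1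
    · intro c hc c' hc' h
      have h2 := hJ0 _ (V.sub_mem (hA c hc).2 (hA c' hc').2) (by
        intro j hj
        have h3 := congrFun h ⟨j, hj⟩
        simp only at h3
        rw [Pi.sub_apply, h3, sub_self])
      funext i
      have h4 := congrFun h2 i
      rw [Pi.sub_apply, Pi.zero_apply, sub_eq_zero] at h4
      exact_mod_cast h4
  rw [card_Bx, Fintype.card_coe] at h1
  exact h1.trans (Nat.pow_le_pow_right (by omega) hJ)

/-- the real polynomials of degree at most `d`, given by their coefficients at the monomials `x ^ i y ^ j`,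
`i + j ≤ d`, which vanish at the points of `S` -/
def Van (d : ℕ) (S : Finset (ℤ × ℤ)) : Submodule ℝ (↥(Ix d) → ℝ) where
  carrier := {a | ∀ p ∈ S, ∑ m : ↥(Ix d), a m * ((p.1 : ℝ) ^ m.1.1 * (p.2 : ℝ) ^ m.1.2) = 0}
  add_mem' := by
    intro a b ha hb p hp
    have h1 := ha p hp
    have h2 := hb p hp
    simp only [Pi.add_apply, add_mul, Finset.sum_add_distrib]
    rw [h1, h2, add_zero]
  zero_mem' := by
    intro p _
    simp
  smul_mem' := by
    intro c a ha p hp
    have h1 := ha p hp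
    simp only [Pi.smul_apply, smul_eq_mul, mul_assoc]
    rw [← Finset.mul_sum, h1, mul_zero]

/-- the coefficients of `F` at the monomials of degree at most `d` -/
noncomputable def vec (d : ℕ) (F : MvPolynomial (Fin 2) ℤ) : ↥(Ix d) → ℝ :=
  fun p => ((F.coeff (Finsupp.single 0 p.1.1 + Finsupp.single 1 p.1.2) : ℤ) : ℝ)

lemma coeff_FM' {d : ℕ} (c : ↥(Ix d) → ℤ) (p : ↥(Ix d)) :
    (FM c).coeff (Finsupp.single 0 p.1.1 + Finsupp.single 1 p.1.2) = c p := by
  rw [coeff_FM]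
  simp only [Finsupp.add_apply, Finsupp.single_eq_same]
  rw [Finsupp.single_eq_of_ne (by simp), Finsupp.single_eq_of_ne (by simp), add_zero, zero_add,
    cf, dif_pos p.2]

lemma vec_FM {d : ℕ} (c : ↥(Ix d) → ℤ) : vec d (FM c) = fun p => (c p : ℝ) := by
  funext p
  rw [vec, coeff_FM']

lemma eval_FM' {d : ℕ} (c : ↥(Ix d) → ℤ) (x y : ℤ) : MvPolynomial.eval ![x, y] (FM c) =
    ∑ m : ↥(Ix d), c m * (x ^ m.1.1 * y ^ m.1.2) := by
  rw [FM, map_sum]
  refine Finset.sum_congr rfl fun p _ => ?_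
  rw [MvPolynomial.eval_monomial, Finsupp.prod_fintype _ _ (by simp), Fin.prod_univ_two]
  have e1 : ((Finsupp.single 0 p.1.1 + Finsupp.single 1 p.1.2 : Fin 2 →₀ ℕ)) 0 = p.1.1 := by
    simp
  have e2 : ((Finsupp.single 0 p.1.1 + Finsupp.single 1 p.1.2 : Fin 2 →₀ ℕ)) 1 = p.1.2 := by
    simp
  rw [e1, e2]
  simp only [Matrix.cons_val_zero, Matrix.cons_val_one]

lemma van_FM {d : ℕ} {S : Finset (ℤ × ℤ)} {c : ↥(Ix d) → ℤ} (h : ∀ p ∈ S, MvPolynomial.eval ![p.1, p.2] (FM c) = 0) :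
    (fun p => (c p : ℝ)) ∈ Van d S := by
  intro p hp
  have h1 := h p hp
  rw [eval_FM'] at h1
  have h2 : ((∑ m : ↥(Ix d), c m * (p.1 ^ m.1.1 * p.2 ^ m.1.2) : ℤ) : ℝ) = 0 := by rw [h1, Int.cast_zero]
  push_cast at h2
  exact h2

/-- at most `(2 H + 1) ^ r` integral polynomials vanish on `S`, where `r` is the dimension of the space of the real ones -/
theorem ncard_van (d : ℕ) (S : Finset (ℤ × ℤ)) (H : ℕ) :
    {F : MvPolynomial (Fin 2) ℤ | F.totalDegree ≤ d ∧ (∀ m, |F.coeff m| ≤ (H : ℤ)) ∧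
      ∀ p ∈ S, MvPolynomial.eval ![p.1, p.2] F = 0}.ncard ≤ (2 * H + 1) ^ (finrank ℝ (Van d S)) := by
  classical
  set A : Finset (↥(Ix d) → ℤ) := (Bx ↥(Ix d) H).filter (fun c => ∀ p ∈ S, MvPolynomial.eval ![p.1, p.2] (FM c) = 0)
    with hA
  have h1 : {F : MvPolynomial (Fin 2) ℤ | F.totalDegree ≤ d ∧ (∀ m, |F.coeff m| ≤ (H : ℤ)) ∧
      ∀ p ∈ S, MvPolynomial.eval ![p.1, p.2] F = 0} ⊆ ((A.image FM : Finset (MvPolynomial (Fin 2) ℤ)) : Set _) := by
    rintro F ⟨h1, h2, h3⟩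
    obtain ⟨c, hc, rfl⟩ := FM_memV.1 ⟨h1, h2⟩
    rw [Finset.mem_coe, Finset.mem_image]
    exact ⟨c, Finset.mem_filter.2 ⟨hc, h3⟩, rfl⟩
  have h2 := Set.ncard_le_ncard h1 (Finset.finite_toSet _)
  rw [Set.ncard_coe_finset] at h2
  refine h2.trans (Finset.card_image_le.trans (card_le (Van d S) H A ?_))
  intro c hc
  obtain ⟨h3, h4⟩ := Finset.mem_filter.1 hc
  exact ⟨mem_Bx.1 h3, van_FM h4⟩

end Pool.Agent.V11286.RL
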