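import Pool.Agent.V11286.RL.Prog

/-! Simultaneous translates of monic polynomials over finite rings. -/

set_option autoImplicit false

open Polynomial Filter

namespace Pool.Agent.V11286.RL

section
variable {A : Type*} [CommRing A] [Nontrivial A]

lemma move_mem {m : ℕ} {P : A[X]} (hP : P ∈ Mon A m) (a : A) {Q : A[X]} (hQ : Q.degree < m) :
    P.comp (X + C a) + Q ∈ Mon A m := by
  obtain ⟨h1, h2⟩ := hP
  have h3 : (taylor a P).natDegree = m := by rw [natDegree_taylor, h2]
  have h4 : (taylor a P).Monic := by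
    rw [Monic, leadingCoeff, h3, ← h2]
    have h5 := coeff_taylor_natDegree (r := a) (f := P)
    rw [h5]
    exact h1
  rw [← taylor_apply]
  have h6 : (taylor a P).degree = m := by rw [degree_eq_natDegree h4.ne_zero, h3]
  have h7 : Q.degree < (taylor a P).degree := by rw [h6]; exact hQ
  refine ⟨h4.add_of_left h7, ?_⟩
  rw [natDegree_add_eq_left_of_degree_lt h7, h3]

omit [Nontrivial A] in
lemma move_inj (a : A) (Q : A[X]) : Function.Injective (fun P : A[X] => P.comp (X + C a) + Q) := by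
  intro P P' h
  have h1 : P.comp (X + C a) = P'.comp (X + C a) := add_right_cancel h
  rw [← taylor_apply, ← taylor_apply] at h1
  exact taylor_injective a h1

end

/-- Let `Prop_ D` hold for every monic `D` over `O` whose reduction modulo `M` lies in `S`, a set of at least
`(1 - η) q ^ m` monic polynomials of degree `m` over `O / M`. Then for at least `(1 - r η) q ^ m` of the monic `P` of
degree `m` over `O / M` all `D(t + c_i) + E_i`, `i < r`, have the property, for every monic `D` with reduction `P`. -/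
theorem simul {O : Type*} [CommRing O] {M : Ideal O} (hM : M ≠ ⊤) (hfin : Finite (O ⧸ M)) (Pr : O[X] → Prop)
    {m : ℕ} {η : ℝ}
    (h : (1 - η) * (Nat.card (O ⧸ M) : ℝ) ^ m ≤ (({P : (O ⧸ M)[X] | P.Monic ∧ P.natDegree = m ∧
      ∀ D : O[X], D.Monic → D.map (Ideal.Quotient.mk M) = P → Pr D}).ncard : ℝ))
    {r : ℕ} (c : Fin r → O) (E : Fin r → O[X]) (hE : ∀ i, (E i).degree < m) :
    (1 - r * η) * (Nat.card (O ⧸ M) : ℝ) ^ m ≤ (({P : (O ⧸ M)[X] | P.Monic ∧ P.natDegree = m ∧
      ∀ D : O[X], D.Monic → D.map (Ideal.Quotient.mk M) = P → ∀ i, Pr (D.comp (X + C (c i)) + E i)}).ncard : ℝ) := by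
  have hnt : Nontrivial (O ⧸ M) := Ideal.Quotient.nontrivial_iff.2 hM
  have hO : Nontrivial O := (Ideal.Quotient.mk M).domain_nontrivial
  have h0 := inter_card (T := Mon (O ⧸ M) m) (S := {P : (O ⧸ M)[X] | P.Monic ∧ P.natDegree = m ∧
      ∀ D : O[X], D.Monic → D.map (Ideal.Quotient.mk M) = P → Pr D}) (finite_mon m)
    (fun P hP => ⟨hP.1, hP.2.1⟩)
    (fun i P => P.comp (X + C (Ideal.Quotient.mk M (c i))) + (E i).map (Ideal.Quotient.mk M))
    (fun i => (move_inj _ _).injOn)
    (fun i P hP => move_mem hP _ (lt_of_le_of_lt degree_map_le (hE i))) (η := η) (by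
      rw [ncard_mon]
      push_cast
      exact h)
  rw [ncard_mon] at h0
  push_cast at h0
  refine h0.trans ?_
  have hfin2 : {P : (O ⧸ M)[X] | P.Monic ∧ P.natDegree = m ∧
      ∀ D : O[X], D.Monic → D.map (Ideal.Quotient.mk M) = P → ∀ i, Pr (D.comp (X + C (c i)) + E i)}.Finite :=
    (finite_mon (A := O ⧸ M) m).subset fun P hP => ⟨hP.1, hP.2.1⟩
  have hsub : {P | P ∈ Mon (O ⧸ M) m ∧ ∀ i, P.comp (X + C (Ideal.Quotient.mk M (c i))) +
      (E i).map (Ideal.Quotient.mk M) ∈ {P : (O ⧸ M)[X] | P.Monic ∧ P.natDegree = m ∧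
      ∀ D : O[X], D.Monic → D.map (Ideal.Quotient.mk M) = P → Pr D}} ⊆ {P : (O ⧸ M)[X] | P.Monic ∧ P.natDegree = m ∧
      ∀ D : O[X], D.Monic → D.map (Ideal.Quotient.mk M) = P → ∀ i, Pr (D.comp (X + C (c i)) + E i)} := by
    rintro P ⟨⟨h1, h2⟩, h3⟩
    refine ⟨h1, h2, fun D hD hDP i => ?_⟩
    have h4 : D.natDegree = m := by
      rw [← h2, ← hDP, hD.natDegree_map]
    refine (h3 i).2.2 _ (move_mem ⟨hD, h4⟩ (c i) (hE i)).1 ?_
    rw [Polynomial.map_add, Polynomial.map_comp, hDP, Polynomial.map_add, map_X, map_C]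
  exact_mod_cast Set.ncard_le_ncard hsub hfin2

end Pool.Agent.V11286.RL
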